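import Mathlib

set_option autoImplicit false

open Finset

namespace Pool.Agent.Results.MP_2b3591_co.Exp

/-- any two members meet -/
def Intersecting {n : ℕ} (F : Finset (Finset (Fin n))) : Prop :=
  ∀ S ∈ F, ∀ T ∈ F, (S ∩ T).Nonempty

/-- the covering number of `F` is `t` -/
def CoverNum {n : ℕ} (F : Finset (Finset (Fin n))) (t : ℕ) : Prop :=
  IsLeast {s | ∃ T : Finset (Fin n), T.card = s ∧ ∀ S ∈ F, (T ∩ S).Nonempty} t

/-- the members of `F` disjoint from `B` -/
def avoid {n : ℕ} (F : Finset (Finset (Fin n))) (B : Finset (Fin n)) : Finset (Finset (Fin n)) :=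
  F.filter fun S => S ∩ B = ∅

theorem transfer {α : Type} [Fintype α] [DecidableEq α] (k r : ℕ) (hr : 1 ≤ r) (hk : 1 ≤ k)
    (hα : k ≤ Fintype.card α) (F : Finset (Finset α))
    (h1 : ∀ S ∈ F, S.card = k) (h2 : ∀ S ∈ F, ∀ T ∈ F, ¬ Disjoint S T)
    (h3 : ∀ B : Finset α, B.card = k - 1 → r ≤ (F.filter fun S => Disjoint S B).card) :
    ∃ (n : ℕ) (G : Finset (Finset (Fin n))), (∀ S ∈ G, S.card = k) ∧ Intersecting G ∧
      CoverNum G k ∧ k - 1 ≤ n ∧ ∀ B : Finset (Fin n), B.card = k - 1 → r ≤ (avoid G B).card := by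
  set e := Fintype.equivFin α
  have hI : Intersecting (F.image fun S => S.map e.toEmbedding) := by
    intro S hS T hT
    obtain ⟨S', hS', rfl⟩ := mem_image.1 hS
    obtain ⟨T', hT', rfl⟩ := mem_image.1 hT
    rw [← not_disjoint_iff_nonempty_inter, disjoint_map]
    exact h2 S' hS' T' hT'
  have hA : ∀ B : Finset (Fin (Fintype.card α)), B.card = k - 1 →
      r ≤ (avoid (F.image fun S => S.map e.toEmbedding) B).card := by
    intro B hB
    refine (h3 (B.map e.symm.toEmbedding) (by simpa using hB)).trans ?_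
    refine card_le_card_of_injOn (fun S => S.map e.toEmbedding) (fun S hS => ?_)
      fun S _ T _ h => map_injective _ h
    simp only [coe_filter, Set.mem_ofPred_eq, avoid] at hS ⊢
    refine ⟨mem_image_of_mem _ hS.1, ?_⟩
    rw [← disjoint_iff_inter_eq_empty, disjoint_left]
    intro x hx hxB
    obtain ⟨y, hy, rfl⟩ := mem_map.1 hx
    exact disjoint_left.1 hS.2 hy (mem_map.2 ⟨_, hxB, by simp⟩)
  have hU : ∀ S ∈ (F.image fun S => S.map e.toEmbedding), S.card = k := by
    intro S hS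
    obtain ⟨S', hS', rfl⟩ := mem_image.1 hS
    rw [card_map, h1 S' hS']
  have hmiss : ∀ T : Finset (Fin (Fintype.card α)), T.card ≤ k - 1 →
      ∃ S ∈ (F.image fun S => S.map e.toEmbedding), S ∩ T = ∅ := by
    intro T hT
    obtain ⟨B, hTB, -, hB⟩ := exists_subsuperset_card_eq (subset_univ T) hT
      (by simp only [card_univ, Fintype.card_fin]; omega)
    obtain ⟨S, hS⟩ := card_pos.1 (lt_of_lt_of_le hr (hA B hB))
    rw [avoid, mem_filter] at hS
    exact ⟨S, hS.1, subset_empty.1 (hS.2 ▸ inter_subset_inter_left hTB)⟩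
  refine ⟨_, _, hU, hI, ⟨?_, ?_⟩, by omega, hA⟩
  · obtain ⟨S, hS, -⟩ := hmiss ∅ (by simp)
    exact ⟨S, hU S hS, fun T hT => hI S hS T hT⟩
  · rintro s ⟨T, rfl, hT⟩
    by_contra hlt
    obtain ⟨S, hS, h⟩ := hmiss T (by omega)
    have := hT S hS
    rw [inter_comm, h] at this
    exact not_nonempty_empty this

theorem two_pow_le (t d : ℕ) (h : d ≤ t) : 2 ^ d ≤ (t + d).choose t := by
  induction d with
  | zero => simp
  | succ d ih =>
    have h1 := Nat.add_one_mul_choose_eq (t + d) d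
    rw [Nat.choose_symm_add] at ih ⊢
    have h2 := ih (by omega)
    rw [← add_assoc, pow_succ]
    have h3 : (d + 1) * (2 ^ d * 2) ≤ (t + d + 1).choose (d + 1) * (d + 1) := by
      rw [← h1]
      calc (d + 1) * (2 ^ d * 2) = (2 * (d + 1)) * 2 ^ d := by ring
        _ ≤ (t + d + 1) * (t + d).choose d := Nat.mul_le_mul (by omega) h2
    rw [mul_comm _ (d + 1)] at h3
    exact Nat.le_of_mul_le_mul_left h3 (by omega)

/-- the part of `S` in block `i` -/
def blk {N : ℕ} (S : Finset (Fin 3 × Fin N)) (i : Fin 3) : Finset (Fin 3 × Fin N) :=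
  S.filter fun x => x.1 = i

theorem card_eq {N : ℕ} (S : Finset (Fin 3 × Fin N)) (i : Fin 3) :
    S.card = (blk S i).card + (blk S (i + 1)).card + (blk S (i + 2)).card := by
  rw [card_eq_sum_card_fiberwise (f := Prod.fst) (t := univ) (fun _ _ => mem_coe.2 (mem_univ _)),
    Fin.sum_univ_three]
  fin_cases i <;> simp [blk] <;> ring

theorem card_blk_univ (N : ℕ) (i : Fin 3) : (blk (univ : Finset (Fin 3 × Fin N)) i).card = N := by
  have : blk (univ : Finset (Fin 3 × Fin N)) i = {i} ×ˢ univ := by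
    ext x; simp only [blk, mem_filter, mem_univ, true_and, mem_product, mem_singleton, and_true]
  rw [this]; simp

theorem blk_add_le {N : ℕ} {S T : Finset (Fin 3 × Fin N)} (h : Disjoint S T) (i : Fin 3) :
    (blk S i).card + (blk T i).card ≤ N := by
  rw [← card_union_of_disjoint (show Disjoint (blk S i) (blk T i) from disjoint_filter_filter h)]
  refine le_trans (card_le_card ?_) (card_blk_univ N i).le
  intro x hx
  simp only [blk, mem_union, mem_filter, mem_univ, true_and] at hx ⊢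
  exact hx.elim (·.2) (·.2)

/-- the cyclic three-block family -/
def fam (N p q : ℕ) : Finset (Finset (Fin 3 × Fin N)) :=
  univ.filter fun S =>
    ∃ i, (blk S i).card = p ∧ (blk S (i + 1)).card = q ∧ (blk S (i + 2)).card = 0

theorem count (N p q : ℕ) (B : Finset (Fin 3 × Fin N)) (i : Fin 3) :
    (N - (blk B i).card).choose p * (N - (blk B (i + 1)).card).choose q ≤
      ((fam N p q).filter fun S => Disjoint S B).card := by
  have hc : ∀ j, (blk Bᶜ j).card = N - (blk B j).card := by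
    intro j
    have : blk Bᶜ j = blk univ j \ blk B j := by
      ext x; simp only [blk, mem_filter, mem_compl, mem_sdiff, mem_univ]; tauto
    rw [this, card_sdiff_of_subset
      (show blk B j ⊆ blk univ j from filter_subset_filter _ (subset_univ B)), card_blk_univ]
  have n1 : i + 1 ≠ i := by fin_cases i <;> decide
  have n2 : i + 2 ≠ i := by fin_cases i <;> decide
  have n3 : i + 2 ≠ i + 1 := by fin_cases i <;> decide
  rw [← hc, ← hc, ← card_powersetCard, ← card_powersetCard, ← card_product]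
  have key : ∀ X ⊆ blk Bᶜ i, ∀ Y ⊆ blk Bᶜ (i + 1),
      blk (X ∪ Y) i = X ∧ blk (X ∪ Y) (i + 1) = Y ∧ blk (X ∪ Y) (i + 2) = ∅ := by
    intro X hX Y hY
    have a : ∀ x ∈ X, x.1 = i := fun x hx => (mem_filter.1 (hX hx)).2
    have b : ∀ x ∈ Y, x.1 = i + 1 := fun x hx => (mem_filter.1 (hY hx)).2
    refine ⟨?_, ?_, ?_⟩ <;> ext x <;>
      simp only [blk, mem_filter, mem_union, notMem_empty, iff_false]
    · exact ⟨fun h => h.1.resolve_right fun k => n1 ((b x k).symm.trans h.2),
        fun h => ⟨Or.inl h, a x h⟩⟩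
    · exact ⟨fun h => h.1.resolve_left fun k => n1 (h.2.symm.trans (a x k)),
        fun h => ⟨Or.inr h, b x h⟩⟩
    · exact fun h => h.1.elim (fun k => n2 (h.2.symm.trans (a x k)))
        fun k => n3 (h.2.symm.trans (b x k))
  refine card_le_card_of_injOn (fun z => z.1 ∪ z.2) (fun z hz => ?_) fun z hz w hw h => ?_
  · simp only [coe_product, Set.mem_prod, mem_coe, mem_powersetCard] at hz
    obtain ⟨k1, k2, k3⟩ := key _ hz.1.1 _ hz.2.1
    simp only [coe_filter, Set.mem_ofPred_eq, fam, mem_filter, mem_univ, true_and]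
    refine ⟨⟨i, by rw [k1, hz.1.2], by rw [k2, hz.2.2], by rw [k3, card_empty]⟩, ?_⟩
    rw [disjoint_left]
    intro x hx
    rcases mem_union.1 hx with hx | hx
    · exact mem_compl.1 (mem_filter.1 (hz.1.1 hx)).1
    · exact mem_compl.1 (mem_filter.1 (hz.2.1 hx)).1
  · simp only [coe_product, Set.mem_prod, mem_coe, mem_powersetCard] at hz hw
    obtain ⟨k1, k2, -⟩ := key _ hz.1.1 _ hz.2.1
    obtain ⟨l1, l2, -⟩ := key _ hw.1.1 _ hw.2.1
    have h' : z.1 ∪ z.2 = w.1 ∪ w.2 := h
    rw [h'] at k1 k2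
    exact Prod.ext (k1.symm.trans l1) (k2.symm.trans l2)

theorem big (k : ℕ) (hk : 5 ≤ k) :
    ∃ (n : ℕ) (G : Finset (Finset (Fin n))), (∀ S ∈ G, S.card = k) ∧ Intersecting G ∧
      CoverNum G k ∧ k - 1 ≤ n ∧
      ∀ B : Finset (Fin n), B.card = k - 1 → 2 ^ ((k - 2) / 3) ≤ (avoid G B).card := by
  refine transfer k _ Nat.one_le_two_pow (by omega) (by simp; omega)
    (fam (k - 1) ((k + 1) / 2) (k / 2)) ?_ ?_ ?_
  · intro S hS
    obtain ⟨i, a, b, c⟩ := (mem_filter.1 hS).2
    rw [card_eq S i, a, b, c]; omega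
  · intro S hS T hT h
    obtain ⟨i, a, b, -⟩ := (mem_filter.1 hS).2
    obtain ⟨j, a', b', -⟩ := (mem_filter.1 hT).2
    have : j = i ∨ j = i + 1 ∨ j + 1 = i :=
      (by decide : ∀ i j : Fin 3, j = i ∨ j = i + 1 ∨ j + 1 = i) i j
    rcases this with rfl | rfl | rfl
    · have := blk_add_le h j; omega
    · have := blk_add_le h (i + 1); omega
    · have := blk_add_le h (j + 1); omega
  · intro B hB
    obtain ⟨i, h1, h2, h3⟩ : ∃ i : Fin 3, (blk B i).card + 1 ≤ k / 2 ∧
        (blk B (i + 1)).card + 1 ≤ (k + 1) / 2 ∧ (k - 2) / 3 + 1 ≤ (blk B (i + 2)).card := by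
      have := card_eq B 0
      by_contra hne
      push Not at hne
      have k0 := hne 0
      have k1 := hne 1
      have k2 := hne 2
      simp only [zero_add, Fin.reduceAdd] at this k0 k1 k2
      omega
    have := card_eq B i
    refine le_trans ?_ (count _ _ _ B i)
    have e1 := two_pow_le ((k + 1) / 2) (k / 2 - 1 - (blk B i).card) (by omega)
    have e2 := two_pow_le (k / 2) ((k + 1) / 2 - 1 - (blk B (i + 1)).card) (by omega)
    rw [show (k + 1) / 2 + (k / 2 - 1 - (blk B i).card) = k - 1 - (blk B i).card by omega] at e1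
    rw [show k / 2 + ((k + 1) / 2 - 1 - (blk B (i + 1)).card) =
      k - 1 - (blk B (i + 1)).card by omega] at e2
    refine le_trans ?_ (Nat.mul_le_mul e1 e2)
    rw [← pow_add]
    exact Nat.pow_le_pow_right (by norm_num) (by omega)

/-- For every `k ≥ 3` there is an intersecting `k`-uniform family with covering number `k` in
which every `(k - 1)`-set misses more than `(11/10)^k` members: `m(k, k - 1) > (11/10)^k`. -/
theorem result (k : ℕ) (hk : 3 ≤ k) :
    ∃ (n : ℕ) (F : Finset (Finset (Fin n))), (∀ S ∈ F, S.card = k) ∧ Intersecting F ∧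
      CoverNum F k ∧ k - 1 ≤ n ∧
      ∀ B : Finset (Fin n), B.card = k - 1 → (11 / 10 : ℝ) ^ k < (avoid F B).card := by
  suffices h : ∃ r : ℕ, (11 / 10 : ℝ) ^ k < r ∧ ∃ (n : ℕ) (F : Finset (Finset (Fin n))),
      (∀ S ∈ F, S.card = k) ∧ Intersecting F ∧ CoverNum F k ∧ k - 1 ≤ n ∧
      ∀ B : Finset (Fin n), B.card = k - 1 → r ≤ (avoid F B).card by
    obtain ⟨r, hr, n, F, a, b, c, d, e⟩ := h
    exact ⟨n, F, a, b, c, d, fun B hB => hr.trans_le (by exact_mod_cast e B hB)⟩
  by_cases h5 : 5 ≤ k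
  · refine ⟨_, ?_, big k h5⟩
    push_cast
    calc (11 / 10 : ℝ) ^ k ≤ (11 / 10 : ℝ) ^ (7 * ((k - 2) / 3)) :=
          pow_le_pow_right₀ (by norm_num) (by omega)
      _ = ((11 / 10 : ℝ) ^ 7) ^ ((k - 2) / 3) := pow_mul _ _ _
      _ < 2 ^ ((k - 2) / 3) := pow_lt_pow_left₀ (by norm_num) (by positivity) (by omega)
  obtain rfl | rfl : k = 3 ∨ k = 4 := by omega
  · refine ⟨2, by norm_num, transfer 3 2 (by norm_num) (by norm_num) (by simp)
      (univ.image fun i : Fin 7 => ({i, i + 1, i + 3} : Finset (Fin 7))) (by decide +kernel)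
      (by decide +kernel) fun B hB => ?_⟩
    obtain ⟨a, b, -, rfl⟩ := card_eq_two.1 hB
    revert a b
    decide +kernel
  · refine ⟨2, by norm_num, transfer 4 2 (by norm_num) (by norm_num) (by simp)
      (univ.image fun i : Fin 13 => ({i, i + 1, i + 3, i + 9} : Finset (Fin 13)))
      (by simp only [forall_mem_image]; decide +kernel)
      (by simp only [forall_mem_image]; decide +kernel) fun B hB => ?_⟩
    obtain ⟨a, b, c, -, -, -, rfl⟩ := card_eq_three.1 hB
    revert a b c
    decide +kernel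

end Pool.Agent.Results.MP_2b3591_co.Exp
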